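import Pool.Agent.H950.FK.St

/-!
# Project FK (helper950), task T9 (helper353): telescoping sums over a window of `ℤ²`
-/

set_option autoImplicit false

namespace Pool.Agent.H353.FK

lemma tel (g : ℤ → ℝ) (a : ℤ) (n : ℕ) :
    ∑ x ∈ Finset.Icc a (a + n - 1), (g (x - 1) - g x) = g (a - 1) - g (a + n - 1) := by
  induction n with
  | zero =>
    rw [Finset.Icc_eq_empty (by push_cast; omega)]
    simp
  | succ n ih =>
    have h : Finset.Icc a (a + ((n + 1 : ℕ) : ℤ) - 1) = insert (a + n) (Finset.Icc a (a + n - 1)) := by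
      ext x
      rw [Finset.mem_insert, Finset.mem_Icc, Finset.mem_Icc]
      push_cast
      omega
    rw [h, Finset.sum_insert (by rw [Finset.mem_Icc]; omega), ih]
    have h2 : a + ((n + 1 : ℕ) : ℤ) - 1 = a + n := by push_cast; ring
    rw [h2]
    ring

lemma one (g : ℤ → ℝ) (h0 : ∀ x, 0 ≤ g x) (h1 : ∀ x, g x ≤ 1) (a b : ℤ) (hab : a ≤ b + 1) :
    |∑ x ∈ Finset.Icc a b, (g (x - 1) - g x)| ≤ 1 := by
  obtain ⟨n, hn⟩ := Int.eq_ofNat_of_zero_le (show 0 ≤ b + 1 - a by omega)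
  have hb : b = a + n - 1 := by omega
  rw [hb, tel, abs_le]
  constructor <;> linarith [h0 (a - 1), h1 (a - 1), h0 (a + n - 1), h1 (a + n - 1)]

lemma nat (a b : ℤ) (hab : a ≤ b + 1) (n : ℕ) : ∀ g : ℤ → ℝ, (∀ x, 0 ≤ g x) → (∀ x, g x ≤ 1) →
    |∑ x ∈ Finset.Icc a b, (g (x - n) - g x)| ≤ n := by
  induction n with
  | zero =>
    intro g _ _
    simp
  | succ n ih =>
    intro g h0 h1
    have h2 : ∑ x ∈ Finset.Icc a b, (g (x - ((n + 1 : ℕ) : ℤ)) - g x) =
        ∑ x ∈ Finset.Icc a b, (g (x - n) - g x) +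
        ∑ x ∈ Finset.Icc a b, ((fun y => g (y - n)) (x - 1) - (fun y => g (y - n)) x) := by
      rw [← Finset.sum_add_distrib]
      refine Finset.sum_congr rfl fun x _ => ?_
      show _ = g (x - n) - g x + (g (x - 1 - n) - g (x - n))
      have h3 : x - ((n + 1 : ℕ) : ℤ) = x - 1 - n := by push_cast; ring
      rw [h3]
      ring
    rw [h2]
    refine (abs_add_le _ _).trans ?_
    have h3 := ih g h0 h1
    have h4 := one (fun y => g (y - n)) (fun x => h0 _) (fun x => h1 _) a b hab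
    push_cast
    linarith

lemma int (a b : ℤ) (hab : a ≤ b + 1) (t : ℤ) (g : ℤ → ℝ) (h0 : ∀ x, 0 ≤ g x) (h1 : ∀ x, g x ≤ 1) :
    |∑ x ∈ Finset.Icc a b, (g (x - t) - g x)| ≤ |(t : ℝ)| := by
  rcases le_total 0 t with ht | ht
  · obtain ⟨n, rfl⟩ := Int.eq_ofNat_of_zero_le ht
    have h2 := nat a b hab n g h0 h1
    rw [Int.cast_natCast, Nat.abs_cast]
    exact h2
  · obtain ⟨n, hn⟩ := Int.eq_ofNat_of_zero_le (show 0 ≤ -t by omega)
    have ht' : t = -n := by omega
    subst ht'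
    have h2 := nat a b hab n (fun y => g (y + n)) (fun x => h0 _) (fun x => h1 _)
    have h3 : ∑ x ∈ Finset.Icc a b, (g (x - -(n : ℤ)) - g x) =
        -∑ x ∈ Finset.Icc a b, ((fun y => g (y + n)) (x - n) - (fun y => g (y + n)) x) := by
      rw [← Finset.sum_neg_distrib]
      refine Finset.sum_congr rfl fun x _ => ?_
      show _ = -(g (x - n + n) - g (x + n))
      rw [sub_neg_eq_add, sub_add_cancel]
      ring
    rw [h3, abs_neg]
    push_cast
    rw [abs_neg, Nat.abs_cast]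
    exact h2

theorem t_sum : Pool.Agent.H950.FK.S_sum := by
  intro u h0 h1 v a b c d hab hcd
  have hcab : ((Finset.Icc a b).card : ℝ) = b - a + 1 := by
    rw [Int.card_Icc]
    have h2 : (((b + 1 - a).toNat : ℤ) : ℝ) = ((b + 1 - a : ℤ) : ℝ) := by
      rw [Int.toNat_of_nonneg (by omega)]
    rw [Int.cast_natCast] at h2
    rw [h2]
    push_cast
    ring
  have hccd : ((Finset.Icc c d).card : ℝ) = d - c + 1 := by
    rw [Int.card_Icc]
    have h2 : (((d + 1 - c).toNat : ℤ) : ℝ) = ((d + 1 - c : ℤ) : ℝ) := by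
      rw [Int.toNat_of_nonneg (by omega)]
    rw [Int.cast_natCast] at h2
    rw [h2]
    push_cast
    ring
  have h2 : ∑ z ∈ Finset.Icc a b ×ˢ Finset.Icc c d, (u (z.1 - v.1, z.2 - v.2) - u z) =
      ∑ y ∈ Finset.Icc c d, ∑ x ∈ Finset.Icc a b,
        ((fun x => u (x, y - v.2)) (x - v.1) - (fun x => u (x, y - v.2)) x) +
      ∑ x ∈ Finset.Icc a b, ∑ y ∈ Finset.Icc c d,
        ((fun y => u (x, y)) (y - v.2) - (fun y => u (x, y)) y) := by
    rw [Finset.sum_comm (s := Finset.Icc c d) (t := Finset.Icc a b), ← Finset.sum_add_distrib,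
      Finset.sum_product]
    refine Finset.sum_congr rfl fun x _ => ?_
    rw [← Finset.sum_add_distrib]
    refine Finset.sum_congr rfl fun y _ => ?_
    show u (x - v.1, y - v.2) - u (x, y) = (u (x - v.1, y - v.2) - u (x, y - v.2)) +
      (u (x, y - v.2) - u (x, y))
    ring
  rw [h2]
  refine (abs_add_le _ _).trans (add_le_add ?_ ?_)
  · refine (Finset.abs_sum_le_sum_abs _ _).trans ?_
    refine (Finset.sum_le_card_nsmul _ _ |(v.1 : ℝ)| fun y _ => ?_).trans ?_
    · exact int a b hab v.1 (fun x => u (x, y - v.2)) (fun _ => h0 _) (fun _ => h1 _)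
    · rw [nsmul_eq_mul, hccd, mul_comm]
  · refine (Finset.abs_sum_le_sum_abs _ _).trans ?_
    refine (Finset.sum_le_card_nsmul _ _ |(v.2 : ℝ)| fun x _ => ?_).trans ?_
    · exact int c d hcd v.2 (fun y => u (x, y)) (fun _ => h0 _) (fun _ => h1 _)
    · rw [nsmul_eq_mul, hcab, mul_comm]

end Pool.Agent.H353.FK
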